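import Pool.Agent.helper38.OP.Spec

/-! # Row op:DNP (MP_bf63dc_nt): the good exponents have positive lower density -/

set_option autoImplicit false

namespace Pool.Agent.OP

open Finset Real Pool.Agent.AT Pool.Agent.helper85.FC Pool.Agent.OM

theorem DNP : DNP_stmt := by
  classical
  intro h ε hε
  obtain ⟨L, hL⟩ := h ε hε
  refine ⟨1 / (2 * ((L : ℝ) + 1) ^ 2), by positivity, fun a b ha hb hab hne σ hσ => ?_⟩
  obtain ⟨r₀, hr₀⟩ := hL a b ha hb hab hne σ hσ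
  refine ⟨4 * L * (r₀ + 1), fun N hN => ?_⟩
  have hL1 : 0 < L := by
    obtain ⟨m, h2, _⟩ := hr₀ r₀ le_rfl
    rw [mem_Ico] at h2
    omega
  choose! m hm hmG using hr₀
  have hm1 : ∀ r, r₀ ≤ r → 1 ≤ m r := fun r hr => (mem_Ico.mp (hm r hr)).1
  have hmL : ∀ r, r₀ ≤ r → m r < L := fun r hr => (mem_Ico.mp (hm r hr)).2
  have hcard : N / L - r₀ ≤ L * #{m ∈ Icc 1 N | GoodU ε σ a b m} := by
    have h1 : #(Icc (r₀ + 1) (N / L)) ≤ #(range L ×ˢ {m ∈ Icc 1 N | GoodU ε σ a b m}) := by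
      refine card_le_card_of_injOn (fun r => (m r, r * m r)) ?_ ?_
      · intro r hr
        rw [mem_coe, mem_Icc] at hr
        have hr1 : r₀ ≤ r := by omega
        have h2 : r * m r ≤ N := by
          calc r * m r ≤ N / L * L := Nat.mul_le_mul hr.2 (hmL r hr1).le
            _ ≤ N := Nat.div_mul_le_self N L
        rw [mem_coe, mem_product, mem_range, mem_filter, mem_Icc]
        exact ⟨hmL r hr1, ⟨Nat.mul_pos (by omega) (hm1 r hr1), h2⟩, hmG r hr1⟩
      · intro r hr s hs hrs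
        rw [mem_coe, mem_Icc] at hr hs
        simp only [Prod.mk.injEq] at hrs
        have h3 : r * m r = s * m r := by rw [hrs.2, hrs.1]
        exact Nat.eq_of_mul_eq_mul_right (hm1 r (by omega)) h3
    rw [Nat.card_Icc, card_product, card_range] at h1
    omega
  have hLR : (0 : ℝ) < L := by exact_mod_cast hL1
  have h4 : (N : ℝ) / L < ((N / L : ℕ) : ℝ) + 1 := Nat.lt_floor_add_one ((N : ℝ) / L) |>.trans_eq (by rw [Nat.floor_div_natCast, Nat.floor_natCast])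
  have h5 : (4 : ℝ) * L * (r₀ + 1) ≤ N := by exact_mod_cast hN
  have h6 : (4 : ℝ) * (r₀ + 1) ≤ (N : ℝ) / L := by
    rw [le_div_iff₀ hLR]
    linarith
  have h7 : ((N / L : ℕ) : ℝ) ≤ L * (#{m ∈ Icc 1 N | GoodU ε σ a b m} : ℝ) + r₀ := by
    have : N / L ≤ L * #{m ∈ Icc 1 N | GoodU ε σ a b m} + r₀ := by omega
    exact_mod_cast this
  have h0 : (0 : ℝ) ≤ (r₀ : ℝ) := Nat.cast_nonneg _
  have h8 : (N : ℝ) / L ≤ 2 * (L * (#{m ∈ Icc 1 N | GoodU ε σ a b m} : ℝ)) := by linarith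
  rw [div_le_iff₀ hLR] at h8
  have h9 : (0 : ℝ) ≤ (#{m ∈ Icc 1 N | GoodU ε σ a b m} : ℝ) := Nat.cast_nonneg _
  rw [div_mul_eq_mul_div, one_mul, div_le_iff₀ (by positivity)]
  nlinarith [mul_nonneg h9 hLR.le]

end Pool.Agent.OP
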